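import Mathlib
import Pool.Agent.Helper85.ProP.TopStmts

/-! Continuous modules over the `p`-adic integers (packet T2 of MP_ac806c_lc). -/

set_option autoImplicit false
set_option linter.unusedSectionVars false

namespace Pool.Agent.Helper27.ProP

open Pool.Agent.Helper85.ProP IsLocalRing Filter Topology

universe u

/-! ### neighbourhoods in `ℤ_p` -/

theorem eventually_padic {p : ℕ} [Fact p.Prime] (z0 : ℤ_[p]) (n : ℕ) :
    ∀ᶠ z in 𝓝 z0, ∃ w : ℤ_[p], z - z0 = (p : ℤ_[p]) ^ n * w := by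
  have h : Metric.closedBall z0 ((p : ℝ) ^ (-(n : ℤ))) ∈ 𝓝 z0 :=
    Metric.closedBall_mem_nhds _ (zpow_pos (by exact_mod_cast (Fact.out : p.Prime).pos) _)
  filter_upwards [h] with z hz
  rw [Metric.mem_closedBall, dist_eq_norm, PadicInt.norm_le_pow_iff_mem_span_pow,
    Ideal.mem_span_singleton] at hz
  exact hz

theorem eventually_padic_fun {p : ℕ} [Fact p.Prime] {d : ℕ} (q0 : Fin d → ℤ_[p]) (n : ℕ) :
    ∀ᶠ q in 𝓝 q0, ∃ w : Fin d → ℤ_[p], q - q0 = (p : ℤ_[p]) ^ n • w := by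
  have h : ∀ i : Fin d, ∀ᶠ q in 𝓝 q0, ∃ w : ℤ_[p], q i - q0 i = (p : ℤ_[p]) ^ n * w := fun i =>
    (continuous_apply i).continuousAt.eventually (eventually_padic (q0 i) n)
  filter_upwards [eventually_all.2 h] with q hq
  choose w hw using hq
  exact ⟨w, funext fun i => by simpa using hw i⟩

/-! ### continuity of scalar multiplication -/

theorem cont_smul_of {R : Type*} [CommRing R] (I : Ideal R) {B : Type*} [AddCommGroup B]
    [TopologicalSpace B] [IsTopologicalAddGroup B] [Module R B]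
    (hbas : ∀ V : Set B, IsOpen V → (0 : B) ∈ V → ∃ U : AddSubgroup B, IsOpen (U : Set B) ∧
      (U : Set B) ⊆ V)
    (hm : ∀ U : AddSubgroup B, IsOpen (U : Set B) → ∃ n : ℕ, ∀ r ∈ I ^ n, ∀ b : B, r • b ∈ U)
    {Y : Type*} [TopologicalSpace Y] (f : Y → R)
    (hf : ∀ y0 n, ∀ᶠ y in 𝓝 y0, f y - f y0 ∈ I ^ n) (b : B) :
    Continuous (fun y => f y • b) := by
  rw [continuous_iff_continuousAt]
  intro y0
  rw [ContinuousAt, ← tendsto_sub_nhds_zero_iff]
  intro V hV
  obtain ⟨V', hV', hV'o, h0⟩ := mem_nhds_iff.1 hV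
  obtain ⟨U, hUo, hUV⟩ := hbas V' hV'o h0
  obtain ⟨n, hn⟩ := hm U hUo
  rw [mem_map]
  filter_upwards [hf y0 n] with y hy
  rw [Set.mem_preimage, ← sub_smul]
  exact hV' (hUV (hn _ hy b))

/-- closed subgroups are stable under scalar multiplication -/
theorem closed_zp {p : ℕ} [Fact p.Prime] {B : Type*} [AddCommGroup B] [TopologicalSpace B]
    [Module ℤ_[p] B] (hc : ∀ b : B, Continuous fun z : ℤ_[p] => z • b) (C : AddSubgroup B)
    (hC : IsClosed (C : Set B)) (z : ℤ_[p]) {b : B} (hb : b ∈ C) : z • b ∈ C := by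
  have h1 : IsClosed {z : ℤ_[p] | z • b ∈ C} := hC.preimage (hc b)
  have h2 : Set.range (Nat.cast : ℕ → ℤ_[p]) ⊆ {z : ℤ_[p] | z • b ∈ C} := by
    rintro _ ⟨n, rfl⟩
    show (n : ℤ_[p]) • b ∈ C
    rw [Nat.cast_smul_eq_nsmul]
    exact nsmul_mem hb n
  exact h1.closure_subset_iff.2 h2 (PadicInt.denseRange_natCast z)

/-- closed subgroups as submodules -/
def toSub {p : ℕ} [Fact p.Prime] {B : Type*} [AddCommGroup B] [TopologicalSpace B]
    [Module ℤ_[p] B] (hc : ∀ b : B, Continuous fun z : ℤ_[p] => z • b) (C : AddSubgroup B)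
    (hC : IsClosed (C : Set B)) : Submodule ℤ_[p] B :=
  { C with smul_mem' := fun z _ hb => closed_zp hc C hC z hb }

theorem mem_toSub {p : ℕ} [Fact p.Prime] {B : Type*} [AddCommGroup B] [TopologicalSpace B]
    [Module ℤ_[p] B] (hc : ∀ b : B, Continuous fun z : ℤ_[p] => z • b) (C : AddSubgroup B)
    (hC : IsClosed (C : Set B)) (b : B) : b ∈ toSub hc C hC ↔ b ∈ C := Iff.rfl

/-- finitely generated submodules are closed -/
theorem closed_span {p : ℕ} [Fact p.Prime] {B : Type*} [AddCommGroup B] [TopologicalSpace B]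
    [IsTopologicalAddGroup B] [T2Space B]
    [Module ℤ_[p] B] (hc : ∀ b : B, Continuous fun z : ℤ_[p] => z • b) {m : ℕ} (s : Fin m → B) :
    IsClosed (Submodule.span ℤ_[p] (Set.range s) : Set B) := by
  have h1 : (Submodule.span ℤ_[p] (Set.range s) : Set B) =
      Set.range (fun z : Fin m → ℤ_[p] => ∑ i, z i • s i) := by
    ext b
    rw [SetLike.mem_coe, Submodule.mem_span_range_iff_exists_fun]
    rfl
  rw [h1]
  apply IsCompact.isClosed
  apply isCompact_range
  exact continuous_finsetSum _ (fun i _ => (hc (s i)).comp (continuous_apply i))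

/-- submodules of a module generated by `m` elements are generated by `m` elements -/
theorem pid_gen {p : ℕ} [Fact p.Prime] {B : Type*} [AddCommGroup B] [Module ℤ_[p] B] {m : ℕ}
    (s : Fin m → B) (hs : Submodule.span ℤ_[p] (Set.range s) = ⊤) (C : Submodule ℤ_[p] B) :
    ∃ t : Fin m → B, (∀ i, t i ∈ C) ∧ C ≤ Submodule.span ℤ_[p] (Set.range t) := by
  set f : (Fin m → ℤ_[p]) →ₗ[ℤ_[p]] B := Fintype.linearCombination ℤ_[p] s with hf
  have hfs : ∀ b : B, ∃ z, f z = b := by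
    intro b
    have hb : b ∈ Submodule.span ℤ_[p] (Set.range s) := by rw [hs]; trivial
    rw [Submodule.mem_span_range_iff_exists_fun] at hb
    obtain ⟨z, hz⟩ := hb
    exact ⟨z, by rw [hf, Fintype.linearCombination_apply]; exact hz⟩
  obtain ⟨n, ⟨bas⟩⟩ := Submodule.nonempty_basis_of_pid (Pi.basisFun ℤ_[p] (Fin m)) (C.comap f)
  have hn : n ≤ m := by
    have h1 := Submodule.finrank_le (C.comap f)
    rw [Module.finrank_eq_card_basis bas, Module.finrank_fin_fun, Fintype.card_fin] at h1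
    exact h1
  refine ⟨fun i => if h : (i : ℕ) < n then f (bas ⟨i, h⟩) else 0, ?_, ?_⟩
  · intro i
    dsimp only
    split_ifs with h
    · exact (bas ⟨i, h⟩).2
    · exact C.zero_mem
  · intro b hb
    obtain ⟨z, rfl⟩ := hfs b
    have hz : z ∈ C.comap f := hb
    have h2 := bas.sum_repr ⟨z, hz⟩
    have h3 : z = ∑ j, (bas.repr ⟨z, hz⟩ j) • (bas j : Fin m → ℤ_[p]) := by
      have h4 := congrArg Subtype.val h2
      refine h4.symm.trans ?_
      simp only [Submodule.coe_sum, Submodule.coe_smul]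
    rw [h3, map_sum]
    refine Submodule.sum_mem _ fun j _ => ?_
    rw [map_smul]
    refine Submodule.smul_mem _ _ (Submodule.subset_span ⟨⟨j, j.2.trans_le hn⟩, ?_⟩)
    simp

/-- compact abelian pro-`p` groups are continuous `ℤ_p`-modules -/
theorem exists_zp (h1 : StmtT1.{u}) (p : ℕ) [Fact p.Prime] (B : Type u) [AddCommGroup B]
    [TopologicalSpace B] [IsTopologicalAddGroup B] [CompactSpace B] [T2Space B]
    (hU : ∀ V : Set B, IsOpen V → (0 : B) ∈ V → ∃ U : AddSubgroup B, IsOpen (U : Set B) ∧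
      (U : Set B) ⊆ V ∧ ∃ n : ℕ, ∀ b, p ^ n • b ∈ U) :
    ∃ _ : Module ℤ_[p] B, ∀ b : B, Continuous (fun z : ℤ_[p] => z • b) := by
  obtain ⟨M, -, hM, -, -⟩ := h1 p 0 B (fun i => i.elim0) (fun i => i.elim0) (by
    intro V hV h0
    obtain ⟨U, hU1, hU2, n, hn⟩ := hU V hV h0
    exact ⟨U, hU1, hU2, fun i => i.elim0, n, fun b => ⟨hn b, fun i => i.elim0⟩⟩)
  refine ⟨Module.compHom B (algebraMap ℤ_[p] (MvPowerSeries (Fin 0) ℤ_[p])), ?_⟩
  intro b
  have hp : (p : MvPowerSeries (Fin 0) ℤ_[p]) ∈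
      maximalIdeal (MvPowerSeries (Fin 0) ℤ_[p]) := by
    rw [mem_maximalIdeal, mem_nonunits_iff, MvPowerSeries.isUnit_iff_constantCoeff, map_natCast]
    exact PadicInt.p_nonunit
  refine cont_smul_of (maximalIdeal (MvPowerSeries (Fin 0) ℤ_[p])) ?_ hM
    (fun z : ℤ_[p] => algebraMap ℤ_[p] (MvPowerSeries (Fin 0) ℤ_[p]) z) ?_ b
  · intro V hV h0
    obtain ⟨U, hU1, hU2, -⟩ := hU V hV h0
    exact ⟨U, hU1, hU2⟩
  · intro z0 n
    filter_upwards [eventually_padic z0 n] with z hz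
    obtain ⟨w, hw⟩ := hz
    rw [← map_sub, hw, map_mul, map_pow, map_natCast]
    exact Ideal.mul_mem_right _ _ (Ideal.pow_mem_pow hp n)

end Pool.Agent.Helper27.ProP
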