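import Mathlib
import Pool.Agent.Helper27.ProP.Zp

/-! Finiteness over the `p`-adic integers (packet T2 of MP_ac806c_lc). -/

set_option autoImplicit false
set_option linter.unusedSectionVars false

namespace Pool.Agent.Helper27.ProP

open Pool.Agent.Helper85.ProP IsLocalRing Filter Topology

universe u

/-- a prime `Q` with `p ∈ Q` and `R ⧸ P` finite over `ℤ_p`, `P ≤ Q`, is maximal -/
theorem maximal_of_finite {p : ℕ} [Fact p.Prime] {R : Type} [CommRing R] [Algebra ℤ_[p] R]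
    (P Q : Ideal R) (hPQ : P ≤ Q) (hQ : Q.IsPrime) (hp : (p : R) ∈ Q)
    (hf : Module.Finite ℤ_[p] (R ⧸ P)) : Q.IsMaximal := by
  have h1 : Module.Finite ℤ_[p] (R ⧸ Q) :=
    Module.Finite.of_surjective (Ideal.Quotient.factorₐ ℤ_[p] hPQ).toLinearMap
      (Ideal.Quotient.factor_surjective hPQ)
  have h2 : Algebra.IsIntegral ℤ_[p] (R ⧸ Q) := Algebra.IsIntegral.of_finite _ _
  rw [← Ideal.bot_quotient_isMaximal_iff]
  refine Ideal.isMaximal_of_isIntegral_of_isMaximal_comap (R := ℤ_[p]) _ ?_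
  have h3 : (Ideal.comap (algebraMap ℤ_[p] (R ⧸ Q)) ⊥).IsPrime := Ideal.comap_isPrime _ _
  refine h3.isMaximal ?_
  intro h4
  have h5 : (p : ℤ_[p]) ∈ Ideal.comap (algebraMap ℤ_[p] (R ⧸ Q)) ⊥ := by
    rw [Ideal.mem_comap, map_natCast, Ideal.mem_bot]
    have : (Ideal.Quotient.mk Q (p : R)) = 0 := Ideal.Quotient.eq_zero_iff_mem.2 hp
    rwa [map_natCast] at this
  rw [h4, Ideal.mem_bot] at h5
  exact (Fact.out : p.Prime).ne_zero (by exact_mod_cast h5)

theorem exists_prime {p : ℕ} [Fact p.Prime] {d : ℕ} {R : Type} [CommRing R] [IsLocalRing R]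
    [IsNoetherianRing R] [Algebra ℤ_[p] R] {ρ : (Fin d → ℤ_[p]) → R} (hH : Hyp p ρ)
    {M : Type u} [AddCommGroup M] [Module R M] [Module.Finite R M]
    (hp : ∀ m : M, (p : R) • m = 0 → m = 0) :
    (∃ (m : ℕ) (s : Fin m → M), ∀ b : M, ∃ z : Fin m → ℤ_[p],
      b = ∑ i, algebraMap ℤ_[p] R (z i) • s i) ∨
    ∃ P : Ideal R, P.IsPrime ∧ Module.annihilator R M ≤ P ∧ (p : R) ∉ P ∧
      ¬ Module.Finite ℤ_[p] (R ⧸ P) := by
  by_cases hP : ∃ P : Ideal R, P.IsPrime ∧ Module.annihilator R M ≤ P ∧ (p : R) ∉ P ∧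
      ¬ Module.Finite ℤ_[p] (R ⧸ P)
  · exact Or.inr hP
  push Not at hP
  left
  set I := Module.annihilator R M with hI
  -- `p` is not a zero divisor modulo `I`
  have hnzd : Ideal.Quotient.mk I (p : R) ∈ nonZeroDivisors (R ⧸ I) := by
    rw [mem_nonZeroDivisors_iff_right]
    intro y hy
    obtain ⟨y, rfl⟩ := Ideal.Quotient.mk_surjective y
    rw [← map_mul, Ideal.Quotient.eq_zero_iff_mem, hI, Module.mem_annihilator] at hy
    rw [Ideal.Quotient.eq_zero_iff_mem, hI, Module.mem_annihilator]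
    intro m
    apply hp
    rw [smul_smul, mul_comm]
    exact hy m
  have hmax : ∀ Q : Ideal R, Q.IsPrime → I ⊔ Ideal.span {(p : R)} ≤ Q → Q = maximalIdeal R := by
    intro Q hQ hle
    obtain ⟨P, hPm, hPQ⟩ := Ideal.exists_minimalPrimes_le (le_sup_left.trans hle)
    have hpQ : (p : R) ∈ Q := hle (Ideal.mem_sup_right (Ideal.mem_span_singleton_self _))
    have hpP : (p : R) ∉ P := by
      intro hpP
      rw [Ideal.minimalPrimes_eq_comap] at hPm
      obtain ⟨P', hP', rfl⟩ := hPm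
      exact Set.disjoint_left.1 (Ideal.disjoint_nonZeroDivisors_of_mem_minimalPrimes hP')
        (Ideal.mem_comap.1 hpP) hnzd
    have hfin := hP P hPm.1.1 hPm.1.2 hpP
    exact IsLocalRing.eq_maximalIdeal (maximal_of_finite P Q hPQ hQ hpQ hfin)
  have hrad : maximalIdeal R ≤ (I ⊔ Ideal.span {(p : R)}).radical := by
    rw [Ideal.radical_eq_sInf]
    refine le_sInf ?_
    rintro Q ⟨hQ1, hQ2⟩
    rw [hmax Q hQ2 hQ1]
  obtain ⟨n, hn⟩ := Ideal.exists_radical_pow_le_of_fg (I ⊔ Ideal.span {(p : R)})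
    (IsNoetherian.noetherian _)
  have hle : maximalIdeal R ^ n ≤ I ⊔ Ideal.span {(p : R)} := (Ideal.pow_right_mono hrad n).trans hn
  have : Finite (R ⧸ maximalIdeal R) := hH.residue
  have hf1 : Finite (R ⧸ maximalIdeal R ^ n) :=
    Ideal.finite_quotient_pow (IsNoetherian.noetherian _) n
  have hf2 : Finite (R ⧸ (I ⊔ Ideal.span {(p : R)})) :=
    Finite.of_surjective _ (Ideal.Quotient.factor_surjective hle)
  have hf3 := hH.fin I hf2
  obtain ⟨k, e, he⟩ := Module.Finite.exists_fin (R := ℤ_[p]) (M := R ⧸ I)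
  obtain ⟨r, s, hs⟩ := Module.Finite.exists_fin (R := R) (M := M)
  choose e' he' using fun i => Ideal.Quotient.mk_surjective (e i)
  refine ⟨Fintype.card (Fin k × Fin r), fun i => (e' ((Fintype.equivFin (Fin k × Fin r)).symm i).1) •
    s ((Fintype.equivFin (Fin k × Fin r)).symm i).2, ?_⟩
  intro b
  have hb : b ∈ Submodule.span R (Set.range s) := by rw [hs]; trivial
  rw [Submodule.mem_span_range_iff_exists_fun] at hb
  obtain ⟨c, hc⟩ := hb
  have hc2 : ∀ j, ∃ z : Fin k → ℤ_[p], c j - ∑ i, algebraMap ℤ_[p] R (z i) * e' i ∈ I := by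
    intro j
    have h1 : Ideal.Quotient.mk I (c j) ∈ Submodule.span ℤ_[p] (Set.range e) := by rw [he]; trivial
    rw [Submodule.mem_span_range_iff_exists_fun] at h1
    obtain ⟨z, hz⟩ := h1
    refine ⟨z, ?_⟩
    rw [← Ideal.Quotient.eq_zero_iff_mem, map_sub, map_sum, ← hz, sub_eq_zero]
    refine Finset.sum_congr rfl fun i _ => ?_
    rw [map_mul, he', Algebra.smul_def]
    rfl
  choose z hz using hc2
  refine ⟨fun i => z ((Fintype.equivFin (Fin k × Fin r)).symm i).2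
    ((Fintype.equivFin (Fin k × Fin r)).symm i).1, ?_⟩
  rw [Equiv.sum_comp (Fintype.equivFin (Fin k × Fin r)).symm
    (fun q : Fin k × Fin r => algebraMap ℤ_[p] R (z q.2 q.1) • (e' q.1 • s q.2)),
    Fintype.sum_prod_type_right, ← hc]
  refine Finset.sum_congr rfl fun j _ => ?_
  have h2 := Module.mem_annihilator.1 (hz j) (s j)
  rw [sub_smul, sub_eq_zero, Finset.sum_smul] at h2
  rw [h2]
  refine Finset.sum_congr rfl fun i _ => ?_
  rw [mul_smul]

end Pool.Agent.Helper27.ProP
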