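import Mathlib
import Pool.Agent.Helper27.ProP.Zp

/-! Abelian quotients of pro-`p` groups (packet T2 of MP_ac806c_lc). -/

set_option autoImplicit false
set_option linter.unusedSectionVars false

namespace Pool.Agent.Helper27.ProP

open Pool.Agent.Helper85.ProP IsLocalRing Filter Topology

universe u

/-- a closed subgroup containing topological generators is everything -/
theorem eq_top_of_gen {G : Type*} [Group G] [TopologicalSpace G] [IsTopologicalGroup G]
    {d : ℕ} {x : Fin d → G} (hx : (Subgroup.closure (Set.range x)).topologicalClosure = ⊤)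
    (L : Subgroup G) (hL : IsClosed (L : Set G)) (h : ∀ i, x i ∈ L) : L = ⊤ := by
  rw [eq_top_iff, ← hx]
  refine Subgroup.topologicalClosure_minimal _ ?_ hL
  rw [Subgroup.closure_le]
  rintro _ ⟨i, rfl⟩
  exact h i

theorem quo_gen (h1 : StmtT1.{u}) (p : ℕ) [Fact p.Prime] {G : Type u} [Group G]
    [TopologicalSpace G] [IsTopologicalGroup G] [CompactSpace G] [T2Space G]
    [TotallyDisconnectedSpace G]
    (hp : ∀ U : Subgroup G, U.Normal → IsOpen (U : Set G) → ∃ n : ℕ, U.index = p ^ n)
    {d : ℕ} {x : Fin d → G} (hx : (Subgroup.closure (Set.range x)).topologicalClosure = ⊤)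
    (K : Subgroup G) (hKn : K.Normal) (hK : IsClosed (K : Set G)) (hcm : ∀ g h : G, cm g h ∈ K)
    (H : Subgroup G) (hH : IsClosed (H : Set G)) :
    ∃ t : Fin d → G, (∀ i, t i ∈ H) ∧ ∀ L : Subgroup G, IsClosed (L : Set G) →
      (∀ i, t i ∈ L) → ∀ h ∈ H, ∃ l ∈ L, l⁻¹ * h ∈ K := by
  have : IsClosed (K : Set G) := hK
  have : T2Space (G ⧸ K) := inferInstance
  let : CommGroup (G ⧸ K) := { (inferInstance : Group (G ⧸ K)) with
    mul_comm := by
      intro a b
      induction a using QuotientGroup.induction_on with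
      | H a =>
      induction b using QuotientGroup.induction_on with
      | H b =>
      have h := hcm a b
      have h2 : ((cm a b : G) : G ⧸ K) = 1 := (QuotientGroup.eq_one_iff _).2 h
      have h3 : (a : G ⧸ K) * b * (a : G ⧸ K)⁻¹ * (b : G ⧸ K)⁻¹ = 1 := h2
      exact commutatorElement_eq_one_iff_mul_comm.1 h3 }
  have : IsTopologicalAddGroup (Additive (G ⧸ K)) := inferInstance
  have : T2Space (Additive (G ⧸ K)) := inferInstanceAs (T2Space (G ⧸ K))
  obtain ⟨M, hM⟩ := exists_zp h1 p (Additive (G ⧸ K)) (by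
    intro V hV h0
    have hV' : IsOpen ((fun g : G => (Additive.ofMul (g : G ⧸ K))) ⁻¹' V) :=
      hV.preimage QuotientGroup.continuous_mk
    obtain ⟨O, hO⟩ := ProfiniteGrp.exist_openNormalSubgroup_sub_open_nhds_of_one hV' h0
    refine ⟨Subgroup.toAddSubgroup (O.toSubgroup.map (QuotientGroup.mk' K)), ?_, ?_, ?_⟩
    · exact QuotientGroup.isOpenMap_coe _ O.isOpen'
    · rintro _ ⟨g, hg, rfl⟩
      exact hO hg
    · obtain ⟨n, hn⟩ := hp O.toSubgroup O.isNormal' O.isOpen'
      refine ⟨n, ?_⟩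
      intro b
      obtain ⟨g, hg⟩ := QuotientGroup.mk_surjective (Additive.toMul b)
      refine ⟨g ^ p ^ n, ?_, ?_⟩
      · have := O.isNormal'
        have := O.toSubgroup.pow_index_mem g
        rw [hn] at this
        exact this
      · show ((g ^ p ^ n : G) : G ⧸ K) = Additive.toMul (p ^ n • b)
        rw [toMul_nsmul, ← hg, QuotientGroup.mk_pow])
  -- the image of a closed subgroup is a closed subgroup
  have himg : ∀ L : Subgroup G, IsClosed (L : Set G) →
      IsClosed ((Subgroup.toAddSubgroup (L.map (QuotientGroup.mk' K)) :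
        AddSubgroup (Additive (G ⧸ K))) : Set (Additive (G ⧸ K))) := by
    intro L hL
    exact (hL.isCompact.image QuotientGroup.continuous_mk).isClosed
  set s : Fin d → Additive (G ⧸ K) := fun i => Additive.ofMul ((x i : G) : G ⧸ K) with hs
  have hspan : Submodule.span ℤ_[p] (Set.range s) = ⊤ := by
    have hcl := closed_span hM s
    rw [eq_top_iff]
    intro b _
    obtain ⟨g, hg⟩ := QuotientGroup.mk_surjective (Additive.toMul b)
    let L : Subgroup G := (AddSubgroup.toSubgroup
      (Submodule.span ℤ_[p] (Set.range s)).toAddSubgroup).comap (QuotientGroup.mk' K)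
    have hL : IsClosed (L : Set G) := hcl.preimage QuotientGroup.continuous_mk
    have hLx : ∀ i, x i ∈ L := fun i => Submodule.subset_span ⟨i, rfl⟩
    have hg2 : g ∈ L := by
      rw [eq_top_of_gen hx L hL hLx]
      trivial
    have hg3 : Additive.ofMul ((g : G) : G ⧸ K) ∈ Submodule.span ℤ_[p] (Set.range s) := hg2
    rw [hg] at hg3
    exact hg3
  obtain ⟨c, hc1, hc2⟩ := pid_gen s hspan (toSub hM _ (himg H hH))
  have hc3 : ∀ i, ∃ t ∈ H, ((t : G) : G ⧸ K) = Additive.toMul (c i) := fun i => hc1 i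
  choose t ht1 ht2 using hc3
  refine ⟨t, ht1, ?_⟩
  intro L hL htL h hh
  have h5 : Additive.ofMul ((h : G) : G ⧸ K) ∈ toSub hM _ (himg H hH) := ⟨h, hh, rfl⟩
  have h6 : Submodule.span ℤ_[p] (Set.range c) ≤ toSub hM _ (himg L hL) := by
    rw [Submodule.span_le]
    rintro _ ⟨i, rfl⟩
    exact ⟨t i, htL i, ht2 i⟩
  obtain ⟨l, hl, hl2⟩ := h6 (hc2 h5)
  exact ⟨l, hl, QuotientGroup.eq.1 hl2⟩

end Pool.Agent.Helper27.ProP
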