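import Mathlib
import Pool.Agent.Helper27.ProP.Quo

/-! The subgroup `A = Z(C_G(G'))` of a metabelian pro-`p` group (packet T2 of MP_ac806c_lc). -/

set_option autoImplicit false
set_option linter.unusedSectionVars false

namespace Pool.Agent.Helper27.ProP

open Pool.Agent.Helper85.ProP IsLocalRing Filter Topology

universe u

section algebra

variable {G : Type u} [Group G]

theorem cm_conj (g a b : G) : g * cm a b * g⁻¹ = cm (g * a * g⁻¹) (g * b * g⁻¹) := by
  unfold cm
  group

theorem mem_centComm {h : G} : h ∈ centComm G ↔ ∀ a b : G, cm a b * h = h * cm a b := by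
  rw [centComm, Subgroup.mem_centralizer_iff]
  constructor
  · intro H a b
    exact H _ ⟨a, b, rfl⟩
  · rintro H _ ⟨a, b, rfl⟩
    exact H a b

theorem centComm_normal : (centComm G).Normal := by
  constructor
  intro h hh g
  rw [mem_centComm] at *
  intro a b
  have h1 := hh (g⁻¹ * a * g) (g⁻¹ * b * g)
  have h2 : cm a b = g * cm (g⁻¹ * a * g) (g⁻¹ * b * g) * g⁻¹ := by
    rw [cm_conj]
    congr 1 <;> group
  rw [h2]
  calc g * cm (g⁻¹ * a * g) (g⁻¹ * b * g) * g⁻¹ * (g * h * g⁻¹)
      = g * (cm (g⁻¹ * a * g) (g⁻¹ * b * g) * h) * g⁻¹ := by group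
    _ = g * h * g⁻¹ * (g * cm (g⁻¹ * a * g) (g⁻¹ * b * g) * g⁻¹) := by rw [h1]; group

theorem mem_AA {a : G} : a ∈ AA G ↔ a ∈ centComm G ∧ ∀ h ∈ centComm G, h * a = a * h := by
  rw [AA, Subgroup.mem_inf, Subgroup.mem_centralizer_iff]
  rfl

theorem AA_normal : (AA G).Normal := by
  constructor
  intro a ha g
  rw [mem_AA] at *
  refine ⟨centComm_normal.conj_mem _ ha.1 g, ?_⟩
  intro h hh
  have h1 := ha.2 (g⁻¹ * h * g) (by
    have := centComm_normal.conj_mem h hh g⁻¹
    rwa [inv_inv] at this)
  calc h * (g * a * g⁻¹) = g * ((g⁻¹ * h * g) * a) * g⁻¹ := by group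
    _ = g * a * g⁻¹ * h := by rw [h1]; group

theorem AA_comm {a b : G} (ha : a ∈ AA G) (hb : b ∈ AA G) : a * b = b * a :=
  (mem_AA.1 hb).2 a (mem_AA.1 ha).1

theorem cm_mem_AA (hmet : ∀ a b c d : G, cm a b * cm c d = cm c d * cm a b) (a b : G) :
    cm a b ∈ AA G := by
  rw [mem_AA, mem_centComm]
  exact ⟨fun c d => hmet c d a b, fun h hh => (mem_centComm.1 hh a b).symm⟩

theorem conj_centComm {h a : G} (hh : h ∈ centComm G) (ha : a ∈ AA G) : h * a * h⁻¹ = a := by
  rw [(mem_AA.1 ha).2 h hh, mul_inv_cancel_right]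

instance instCommAA : CommGroup (AA G) :=
  { (inferInstance : Group (AA G)) with
    mul_comm := fun a b => Subtype.ext (AA_comm a.2 b.2) }

/-- the underlying additive group of `A` -/
abbrev BB (G : Type u) [Group G] : Type u := Additive (AA G)

/-- the element of `G` -/
def val (b : BB G) : G := ((Additive.toMul b : AA G) : G)

theorem val_mem (b : BB G) : val b ∈ AA G := (Additive.toMul b : AA G).2

theorem val_inj {b b' : BB G} (h : val b = val b') : b = b' := Subtype.ext h

theorem val_add (b b' : BB G) : val (b + b') = val b * val b' := rfl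

theorem val_zero : val (0 : BB G) = 1 := rfl

theorem val_neg (b : BB G) : val (-b) = (val b)⁻¹ := rfl

theorem val_nsmul (n : ℕ) (b : BB G) : val (n • b) = val b ^ n := rfl

/-- the element of `B` -/
def mkB {a : G} (ha : a ∈ AA G) : BB G := Additive.ofMul ⟨a, ha⟩

theorem val_mkB {a : G} (ha : a ∈ AA G) : val (mkB ha) = a := rfl

/-- conjugation -/
def cj (h : G) : BB G →+ BB G where
  toFun b := mkB (AA_normal.conj_mem _ (val_mem b) h)
  map_zero' := val_inj (by rw [val_mkB, val_zero]; group)
  map_add' b b' := val_inj (by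
    show h * (val b * val b') * h⁻¹ = (h * val b * h⁻¹) * (h * val b' * h⁻¹)
    group)

theorem val_cj (h : G) (b : BB G) : val (cj h b) = h * val b * h⁻¹ := rfl

theorem cj_one (b : BB G) : cj 1 b = b := val_inj (by rw [val_cj]; group)

theorem cj_mul (g h : G) (b : BB G) : cj (g * h) b = cj g (cj h b) :=
  val_inj (by rw [val_cj, val_cj, val_cj]; group)

theorem cj_comm (hmet : ∀ a b c d : G, cm a b * cm c d = cm c d * cm a b) (g h : G) (b : BB G) :
    cj g (cj h b) = cj h (cj g b) := by
  rw [← cj_mul, ← cj_mul]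
  have h1 : g * h = cm g h * (h * g) := by unfold cm; group
  rw [h1, cj_mul]
  apply val_inj
  rw [val_cj, conj_centComm (mem_AA.1 (cm_mem_AA hmet g h)).1 (val_mem _)]

/-- `T_h = conjugation - 1` -/
def TT (h : G) : BB G →+ BB G := cj h - AddMonoidHom.id _

theorem TT_apply (h : G) (b : BB G) : TT h b = cj h b - b := rfl

theorem val_TT (h : G) (b : BB G) : val (TT h b) = h * val b * h⁻¹ * (val b)⁻¹ := by
  rw [TT_apply, sub_eq_add_neg, val_add, val_neg, val_cj]

theorem TT_comm (hmet : ∀ a b c d : G, cm a b * cm c d = cm c d * cm a b) (g h : G) (b : BB G) :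
    TT g (TT h b) = TT h (TT g b) := by
  simp only [TT_apply, map_sub, cj_comm hmet g h b]
  abel

theorem TT_iter_mem {O : Subgroup G} [O.Normal] (h : G) (n : ℕ) (b : BB G) :
    ((val ((TT h)^[n] b) : G) : G ⧸ O) ∈ (⊤ : Subgroup (G ⧸ O)).lowerCentralSeries n := by
  induction n with
  | zero => exact Subgroup.mem_top _
  | succ n ih =>
    rw [Function.iterate_succ_apply', val_TT, Subgroup.lowerCentralSeries_succ]
    have h1 := Subgroup.commutator_mem_commutator ih (Subgroup.mem_top ((h : G) : G ⧸ O))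
    have h2 := inv_mem h1
    rw [commutatorElement_inv] at h2
    exact h2

end algebra

section topology

variable {G : Type u} [Group G] [TopologicalSpace G] [IsTopologicalGroup G] [CompactSpace G]
  [T2Space G] [TotallyDisconnectedSpace G]

theorem AA_closed : IsClosed ((AA G : Subgroup G) : Set G) := by
  rw [AA]
  exact (Set.isClosed_centralizer _).inter (Set.isClosed_centralizer _)

instance : CompactSpace (AA G) := isCompact_iff_compactSpace.1 (AA_closed (G := G)).isCompact

theorem continuous_val : Continuous (val : BB G → G) := continuous_subtype_val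

theorem continuous_of_val {Y : Type*} [TopologicalSpace Y] {f : Y → BB G}
    (h : Continuous fun y => val (f y)) : Continuous f := continuous_induced_rng.2 h

instance instTopBB : IsTopologicalAddGroup (BB G) where
  continuous_add := continuous_of_val
    ((continuous_val.comp continuous_fst).mul (continuous_val.comp continuous_snd))
  continuous_neg := continuous_of_val (continuous_val.inv)

instance instT2BB : T2Space (BB G) := inferInstanceAs (T2Space (AA G))

theorem continuous_cj (b : BB G) : Continuous (fun h : G => cj h b) := by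
  apply continuous_of_val
  simp only [val_cj]
  fun_prop

/-- the open subgroup `O ∩ A` -/
def inter (O : Subgroup G) : AddSubgroup (BB G) := Subgroup.toAddSubgroup (O.subgroupOf (AA G))

theorem mem_inter (O : Subgroup G) (b : BB G) : b ∈ inter O ↔ val b ∈ O := Iff.rfl

theorem inter_open (O : Subgroup G) (hO : IsOpen (O : Set G)) :
    IsOpen (inter O : Set (BB G)) := hO.preimage continuous_val

theorem inter_closed (O : Subgroup G) (hO : IsClosed (O : Set G)) :
    IsClosed (inter O : Set (BB G)) := hO.preimage continuous_val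

theorem basis_inter (V : Set (BB G)) (hV : IsOpen V) (h0 : (0 : BB G) ∈ V) :
    ∃ O : OpenNormalSubgroup G, (inter O.toSubgroup : Set (BB G)) ⊆ V := by
  obtain ⟨W, hW, rfl⟩ := isOpen_induced_iff.1 hV
  obtain ⟨O, hO⟩ := ProfiniteGrp.exist_openNormalSubgroup_sub_open_nhds_of_one hW h0
  exact ⟨O, fun b hb => hO hb⟩

theorem good_nhds (p : ℕ) [Fact p.Prime]
    (hp : ∀ U : Subgroup G, U.Normal → IsOpen (U : Set G) → ∃ n : ℕ, U.index = p ^ n)
    {d : ℕ} (x : Fin d → G) (V : Set (BB G)) (hV : IsOpen V) (h0 : (0 : BB G) ∈ V) :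
    ∃ U : AddSubgroup (BB G), IsOpen (U : Set (BB G)) ∧
      (U : Set (BB G)) ⊆ V ∧ (∀ i, ∀ b ∈ U, TT (x i) b ∈ U) ∧
      ∃ n : ℕ, ∀ b, p ^ n • b ∈ U ∧ ∀ i, (TT (x i))^[n] b ∈ U := by
  obtain ⟨O, hO⟩ := basis_inter V hV h0
  have hOn := O.isNormal'
  obtain ⟨n, hn⟩ := hp O.toSubgroup O.isNormal' O.isOpen'
  refine ⟨inter O.toSubgroup, inter_open _ O.isOpen', hO, ?_, ?_⟩
  · intro i b hb
    rw [mem_inter] at *
    rw [val_TT]
    exact mul_mem (hOn.conj_mem _ hb _) (inv_mem hb)
  · have hcard : Nat.card (G ⧸ O.toSubgroup) = p ^ n := by rw [← hn]; rfl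
    have hfin : Finite (G ⧸ O.toSubgroup) := by
      apply Nat.finite_of_card_ne_zero
      rw [hcard]
      exact pow_ne_zero _ (Fact.out : p.Prime).ne_zero
    have hnil : Group.IsNilpotent (G ⧸ O.toSubgroup) := (IsPGroup.of_card hcard).isNilpotent
    obtain ⟨m, hm⟩ := Subgroup.nilpotent_iff_lowerCentralSeries.1 hnil
    refine ⟨n + m, ?_⟩
    intro b
    constructor
    · rw [mem_inter, val_nsmul, pow_add, pow_mul]
      refine pow_mem ?_ _
      have := O.toSubgroup.pow_index_mem (val b)
      rwa [hn] at this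
    · intro i
      rw [mem_inter, add_comm, Function.iterate_add_apply]
      have h1 := TT_iter_mem (O := O.toSubgroup) (x i) m ((TT (x i))^[n] b)
      rw [hm, Subgroup.mem_bot] at h1
      exact (QuotientGroup.eq_one_iff _).1 h1

end topology

end Pool.Agent.Helper27.ProP
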