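import Mathlib
import Pool.Agent.Helper27.ProP.Grp
import Pool.Agent.Helper27.ProP.AlgF

/-! Packet T2 of MP_ac806c_lc. -/

set_option autoImplicit false
set_option linter.unusedSectionVars false

namespace Pool.Agent.Helper27.ProP

open Pool.Agent.Helper85.ProP IsLocalRing Filter Topology

universe u

section

variable {G : Type u} [Group G]

theorem cm_mul_left (g h y : G) : cm (g * h) y = g * cm h y * g⁻¹ * cm g y := by
  unfold cm; group

theorem cm_inv_left (g y : G) : cm g⁻¹ y = g⁻¹ * (cm g y)⁻¹ * g := by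
  unfold cm; group

theorem cm_mul_right (g h k : G) : cm g (h * k) = cm g h * (h * cm g k * h⁻¹) := by
  unfold cm; group

theorem cm_inv_right (g h : G) : cm g h⁻¹ = h⁻¹ * (cm g h)⁻¹ * h := by
  unfold cm; group

/-- the subgroup of `G` attached to a subgroup of `B` -/
def toG (N : AddSubgroup (BB G)) : Subgroup G where
  carrier := val '' (N : Set (BB G))
  one_mem' := ⟨0, N.zero_mem, val_zero⟩
  mul_mem' := by
    rintro _ _ ⟨b, hb, rfl⟩ ⟨b', hb', rfl⟩
    exact ⟨b + b', N.add_mem hb hb', val_add b b'⟩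
  inv_mem' := by
    rintro _ ⟨b, hb, rfl⟩
    exact ⟨-b, N.neg_mem hb, val_neg b⟩

theorem mem_toG (N : AddSubgroup (BB G)) (b : BB G) : val b ∈ toG N ↔ b ∈ N := by
  constructor
  · rintro ⟨b', hb', h⟩
    rw [← val_inj h]
    exact hb'
  · intro h
    exact ⟨b, h, rfl⟩

end

section

variable {G : Type u} [Group G] [TopologicalSpace G] [IsTopologicalGroup G] [CompactSpace G]
  [T2Space G] [TotallyDisconnectedSpace G]

theorem toG_closed (N : AddSubgroup (BB G)) (hN : IsClosed (N : Set (BB G))) :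
    IsClosed (toG N : Set G) :=
  (hN.isCompact.image continuous_val).isClosed

/-- all commutators are in a closed normal subgroup containing those of the generators -/
theorem cm_mem_of_gen {d : ℕ} {x : Fin d → G}
    (hx : (Subgroup.closure (Set.range x)).topologicalClosure = ⊤) (K : Subgroup G)
    (hKn : K.Normal) (hK : IsClosed (K : Set G)) (h : ∀ i j, cm (x i) (x j) ∈ K) (g k : G) :
    cm g k ∈ K := by
  have h1 : ∀ (g : G) (j : Fin d), cm g (x j) ∈ K := by
    intro g j
    let L : Subgroup G :=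
      { carrier := {g | cm g (x j) ∈ K}
        one_mem' := by
          show cm 1 (x j) ∈ K
          have : cm 1 (x j) = 1 := by unfold cm; group
          rw [this]; exact K.one_mem
        mul_mem' := by
          intro a b ha hb
          show cm (a * b) (x j) ∈ K
          rw [cm_mul_left]
          exact K.mul_mem (hKn.conj_mem _ hb a) ha
        inv_mem' := by
          intro a ha
          show cm a⁻¹ (x j) ∈ K
          rw [cm_inv_left]
          have := hKn.conj_mem _ (K.inv_mem ha) a⁻¹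
          rwa [inv_inv] at this }
    have hL : IsClosed (L : Set G) := by
      refine hK.preimage (f := fun g => cm g (x j)) ?_
      unfold cm
      fun_prop
    have hg : g ∈ L := by
      rw [eq_top_of_gen hx L hL (fun i => h i j)]
      trivial
    exact hg
  let L : Subgroup G :=
    { carrier := {k | cm g k ∈ K}
      one_mem' := by
        show cm g 1 ∈ K
        have : cm g 1 = 1 := by unfold cm; group
        rw [this]; exact K.one_mem
      mul_mem' := by
        intro a b ha hb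
        show cm g (a * b) ∈ K
        rw [cm_mul_right]
        exact K.mul_mem ha (hKn.conj_mem _ hb a)
      inv_mem' := by
        intro a ha
        show cm g a⁻¹ ∈ K
        rw [cm_inv_right]
        have := hKn.conj_mem _ (K.inv_mem ha) a⁻¹
        rwa [inv_inv] at this }
  have hL : IsClosed (L : Set G) := by
    refine hK.preimage (f := fun k => cm g k) ?_
    unfold cm
    fun_prop
  have hg : k ∈ L := by
    rw [eq_top_of_gen hx L hL (fun i => h1 g i)]
    trivial
  exact hg

theorem finRank_of (h1 : StmtT1.{u}) (p : ℕ) [Fact p.Prime]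
    (hp : ∀ U : Subgroup G, U.Normal → IsOpen (U : Set G) → ∃ n : ℕ, U.index = p ^ n)
    {d : ℕ} {x : Fin d → G} (hx : (Subgroup.closure (Set.range x)).topologicalClosure = ⊤)
    (A : Subgroup G) (hAn : A.Normal) (hA : IsClosed (A : Set G)) (hcm : ∀ g h : G, cm g h ∈ A)
    (m : ℕ) (hgen : ∀ H : Subgroup G, IsClosed (H : Set G) → H ≤ A → ∃ y : Fin m → G,
      (∀ i, y i ∈ H) ∧ ∀ L : Subgroup G, IsClosed (L : Set G) → (∀ i, y i ∈ L) → H ≤ L) :
    FinRank G := by
  refine ⟨m + d, ?_⟩
  intro H hH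
  obtain ⟨y, hy1, hy2⟩ := hgen (H ⊓ A) (hH.inter hA) inf_le_right
  obtain ⟨t, ht1, ht2⟩ := quo_gen h1 p hp hx A hAn hA hcm H hH
  refine ⟨Fin.append y t, ?_⟩
  have hle : (Subgroup.closure (Set.range (Fin.append y t))).topologicalClosure ≤ H := by
    refine Subgroup.topologicalClosure_minimal _ ?_ hH
    rw [Subgroup.closure_le]
    rintro _ ⟨i, rfl⟩
    refine Fin.addCases (fun i => ?_) (fun i => ?_) i
    · rw [Fin.append_left]
      exact (hy1 i).1
    · rw [Fin.append_right]
      exact ht1 i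
  apply le_antisymm hle
  set L := (Subgroup.closure (Set.range (Fin.append y t))).topologicalClosure with hL
  have hLc : IsClosed (L : Set G) := Subgroup.isClosed_topologicalClosure _
  have hy3 : ∀ i, y i ∈ L := fun i => Subgroup.le_topologicalClosure _
    (Subgroup.subset_closure ⟨Fin.castAdd d i, Fin.append_left _ _ _⟩)
  have ht3 : ∀ i, t i ∈ L := fun i => Subgroup.le_topologicalClosure _
    (Subgroup.subset_closure ⟨Fin.natAdd m i, Fin.append_right _ _ _⟩)
  intro h hh
  obtain ⟨l, hl, hl2⟩ := ht2 L hLc ht3 h hh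
  have h3 : l⁻¹ * h ∈ L := hy2 L hLc hy3 ⟨H.mul_mem (H.inv_mem (hle hl)) hh, hl2⟩
  have h4 := L.mul_mem hl h3
  rwa [mul_inv_cancel_left] at h4

end

theorem stmtTop (h1 : StmtT1.{u}) (h2 : StmtHyp) : StmtTop.{u} := by
  intro p _ G _ _ _ _ _ _ hp d x hx htf hmet
  obtain ⟨hH, hρ⟩ := h2 p d
  obtain ⟨M, hX, hop, hfg, -⟩ := h1 p d (BB G) (fun i => TT (x i))
    (fun i j b => TT_comm hmet (x i) (x j) b)
    (fun V hV h0 => good_nhds p hp x V hV h0)
  have hbas : ∀ V : Set (BB G), IsOpen V → (0 : BB G) ∈ V → ∃ U : AddSubgroup (BB G),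
      IsOpen (U : Set (BB G)) ∧ (U : Set (BB G)) ⊆ V := by
    intro V hV h0
    obtain ⟨O, hO⟩ := basis_inter V hV h0
    exact ⟨_, inter_open _ O.isOpen', hO⟩
  have hc1 : ∀ b : BB G, Continuous fun z : ℤ_[p] =>
      algebraMap ℤ_[p] (MvPowerSeries (Fin d) ℤ_[p]) z • b := by
    intro b
    refine cont_smul_of (maximalIdeal (MvPowerSeries (Fin d) ℤ_[p])) hbas hop
      (fun z : ℤ_[p] => algebraMap ℤ_[p] (MvPowerSeries (Fin d) ℤ_[p]) z) ?_ b
    intro z0 n
    filter_upwards [eventually_padic z0 n] with z hz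
    obtain ⟨w, hw⟩ := hz
    rw [← map_sub, hw, map_mul, map_pow, map_natCast]
    exact Ideal.mul_mem_right _ _ (Ideal.pow_mem_pow hH.p_mem n)
  have hc2 : ∀ b : BB G, Continuous fun q : Fin d → ℤ_[p] => rhoS p d q • b := by
    intro b
    refine cont_smul_of (maximalIdeal (MvPowerSeries (Fin d) ℤ_[p])) hbas hop
      (fun q => rhoS p d q) ?_ b
    intro q0 n
    filter_upwards [eventually_padic_fun q0 n] with q hq
    obtain ⟨w, hw⟩ := hq
    have e : q = q0 + (p : ℤ_[p]) ^ n • w := by rw [← hw]; abel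
    have e2 : rhoS p d q - rhoS p d q0 = rhoS p d q0 * (rhoS p d ((p : ℤ_[p]) ^ n • w) - 1) := by
      rw [e, hH.add]; ring
    rw [e2]
    exact Ideal.mul_mem_left _ _
      (Ideal.pow_le_pow_right (Nat.le_succ n) (hH.p_pow_smul_sub_one_mem w n))
  -- the action
  set S : Set (G × (Fin d → ℤ_[p])) := {hq | ∀ b : BB G, cj hq.1 b = rhoS p d hq.2 • b} with hS
  have hScl : IsClosed S := by
    have : S = ⋂ b : BB G, {hq : G × (Fin d → ℤ_[p]) | cj hq.1 b = rhoS p d hq.2 • b} := by
      ext hq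
      simp [hS]
    rw [this]
    exact isClosed_iInter fun b => isClosed_eq ((continuous_cj b).comp continuous_fst)
      ((hc2 b).comp continuous_snd)
  have hSone : ((1 : G), (0 : Fin d → ℤ_[p])) ∈ S := by
    intro b
    show cj 1 b = rhoS p d 0 • b
    rw [cj_one, hH.zero, one_smul]
  have hSmul : ∀ h q h' q', (h, q) ∈ S → (h', q') ∈ S → (h * h', q + q') ∈ S := by
    intro h q h' q' h1 h2 b
    show cj (h * h') b = rhoS p d (q + q') • b
    have e1 : cj h (cj h' b) = rhoS p d q • (cj h' b) := h1 _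
    have e2 : cj h' b = rhoS p d q' • b := h2 b
    rw [cj_mul, e1, e2, hH.add, mul_smul]
  have hSinv : ∀ h q, (h, q) ∈ S → (h⁻¹, -q) ∈ S := by
    intro h q h1 b
    show cj h⁻¹ b = rhoS p d (-q) • b
    have e1 : cj h (rhoS p d (-q) • b) = rhoS p d q • (rhoS p d (-q) • b) := h1 _
    rw [smul_smul, hH.mul_neg, one_smul] at e1
    conv_lhs => rw [← e1]
    rw [← cj_mul, inv_mul_cancel, cj_one]
  have hSx : ∀ i, (x i, Pi.single i (1 : ℤ_[p])) ∈ S := by
    intro i b
    show cj (x i) b = rhoS p d (Pi.single i 1) • b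
    rw [hρ i, add_smul, one_smul, hX i b, TT_apply]
    abel
  have hact1 : ∀ h : G, ∃ q : Fin d → ℤ_[p], ∀ b : BB G, cj h b = rhoS p d q • b := by
    let L : Subgroup G :=
      { carrier := Prod.fst '' S
        one_mem' := ⟨_, hSone, rfl⟩
        mul_mem' := by
          rintro _ _ ⟨⟨h, q⟩, h1, rfl⟩ ⟨⟨h', q'⟩, h2, rfl⟩
          exact ⟨_, hSmul h q h' q' h1 h2, rfl⟩
        inv_mem' := by
          rintro _ ⟨⟨h, q⟩, h1, rfl⟩
          exact ⟨_, hSinv h q h1, rfl⟩ }
    have hL : IsClosed (L : Set G) := (hScl.isCompact.image continuous_fst).isClosed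
    intro h
    have hh : h ∈ L := by
      rw [eq_top_of_gen hx L hL (fun i => ⟨_, hSx i, rfl⟩)]
      trivial
    obtain ⟨⟨h', q⟩, h3, rfl⟩ := hh
    exact ⟨q, h3⟩
  have hact2 : ∀ q : Fin d → ℤ_[p], ∃ h : G, ∀ b : BB G, cj h b = rhoS p d q • b := by
    let L : AddSubgroup (Fin d → ℤ_[p]) :=
      { carrier := Prod.snd '' S
        zero_mem' := ⟨_, hSone, rfl⟩
        add_mem' := by
          rintro _ _ ⟨⟨h, q⟩, h1, rfl⟩ ⟨⟨h', q'⟩, h2, rfl⟩
          exact ⟨_, hSmul h q h' q' h1 h2, rfl⟩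
        neg_mem' := by
          rintro _ ⟨⟨h, q⟩, h1, rfl⟩
          exact ⟨_, hSinv h q h1, rfl⟩ }
    have hL : IsClosed (L : Set (Fin d → ℤ_[p])) :=
      (hScl.isCompact.image continuous_snd).isClosed
    have h3 : ∀ (z : ℤ_[p]) (i : Fin d), z • (Pi.single i (1 : ℤ_[p]) : Fin d → ℤ_[p]) ∈ L := by
      intro z i
      refine closed_zp (fun b => ?_) L hL z ⟨_, hSx i, rfl⟩
      fun_prop
    intro q
    have hq : q ∈ L := by
      have e : q = ∑ i, q i • (Pi.single i (1 : ℤ_[p]) : Fin d → ℤ_[p]) := pi_eq_sum_univ' q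
      rw [e]
      exact L.sum_mem fun i _ => h3 (q i) i
    obtain ⟨⟨h, q'⟩, h4, rfl⟩ := hq
    exact ⟨h, h4⟩
  -- finite generation
  set N : Submodule (MvPowerSeries (Fin d) ℤ_[p]) (BB G) := Submodule.span _
    (Set.range fun ij : Fin d × Fin d => mkB (cm_mem_AA hmet (x ij.1) (x ij.2))) with hN
  have hNfg : N.FG := Submodule.fg_span (Set.finite_range _)
  have hNcl := hfg N hNfg
  have hKn : (toG N.toAddSubgroup).Normal := by
    constructor
    rintro _ ⟨b, hb, rfl⟩ h
    obtain ⟨q, hq⟩ := hact1 h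
    have e : h * val b * h⁻¹ = val (rhoS p d q • b) := by rw [← hq b, val_cj]
    rw [e]
    exact ⟨_, N.smul_mem _ hb, rfl⟩
  have hKcl := toG_closed N.toAddSubgroup hNcl
  have hKcm : ∀ g h : G, cm g h ∈ toG N.toAddSubgroup :=
    cm_mem_of_gen hx _ hKn hKcl (fun i j => ⟨_, Submodule.subset_span ⟨(i, j), rfl⟩, rfl⟩)
  obtain ⟨t, ht1, ht2⟩ := quo_gen h1 p hp hx _ hKn hKcl hKcm (AA G) AA_closed
  have hfin : Module.Finite (MvPowerSeries (Fin d) ℤ_[p]) (BB G) := by
    set N2 : Submodule (MvPowerSeries (Fin d) ℤ_[p]) (BB G) :=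
      N ⊔ Submodule.span _ (Set.range fun i => mkB (ht1 i)) with hN2
    have hN2fg : N2.FG := hNfg.sup (Submodule.fg_span (Set.finite_range _))
    have hN2cl := hfg N2 hN2fg
    have htop : N2 = ⊤ := by
      rw [eq_top_iff]
      intro b _
      obtain ⟨l, ⟨b2, hb2, rfl⟩, hl2⟩ := ht2 (toG N2.toAddSubgroup)
        (toG_closed _ hN2cl)
        (fun i => ⟨mkB (ht1 i), (le_sup_right : _ ≤ N2) (Submodule.subset_span ⟨i, rfl⟩), rfl⟩)
        (val b) (val_mem b)
      rw [← val_neg, ← val_add, mem_toG] at hl2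
      have h5 : -b2 + b ∈ N2 := (le_sup_left : N ≤ N2) hl2
      have h6 := N2.add_mem hb2 h5
      rwa [add_neg_cancel_left] at h6
    exact ⟨by rw [← htop]; exact hN2fg⟩
  have hnop : ∀ m : BB G, (p : MvPowerSeries (Fin d) ℤ_[p]) • m = 0 → m = 0 := by
    intro m hm
    rw [Nat.cast_smul_eq_nsmul] at hm
    have h3 := congrArg val hm
    rw [val_nsmul, val_zero] at h3
    exact val_inj (htf _ p (Fact.out : p.Prime).pos h3)
  rcases exists_prime hH hnop with ⟨m, s, hs⟩ | ⟨P, hP1, hP2, hP3, hP4⟩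
  · left
    let iM : Module ℤ_[p] (BB G) :=
      Module.compHom (BB G) (algebraMap ℤ_[p] (MvPowerSeries (Fin d) ℤ_[p]))
    have hsm : ∀ (z : ℤ_[p]) (b : BB G), z • b =
      algebraMap ℤ_[p] (MvPowerSeries (Fin d) ℤ_[p]) z • b := fun _ _ => rfl
    have hspan : Submodule.span ℤ_[p] (Set.range s) = ⊤ := by
      rw [eq_top_iff]
      intro b _
      obtain ⟨z, hz⟩ := hs b
      rw [Submodule.mem_span_range_iff_exists_fun]
      exact ⟨z, hz.symm⟩
    refine finRank_of h1 p hp hx (AA G) AA_normal AA_closed (cm_mem_AA hmet) m ?_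
    intro H hHc hHA
    obtain ⟨y, hy1, hy2⟩ := pid_gen s hspan (toSub hc1 (inter H) (inter_closed H hHc))
    refine ⟨fun i => val (y i), hy1, ?_⟩
    intro L hL hyL h hh
    have h3 : Submodule.span ℤ_[p] (Set.range y) ≤ toSub hc1 (inter L) (inter_closed L hL) := by
      rw [Submodule.span_le]
      rintro _ ⟨i, rfl⟩
      exact hyL i
    have h4 : mkB (hHA hh) ∈ toSub hc1 (inter H) (inter_closed H hHc) := hh
    exact h3 (hy2 h4)
  · right
    classical
    refine ⟨BB G, inferInstance, M, hfin, fun g => if hg : g ∈ AA G then mkB hg else 0,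
      ?_, ?_, ?_, ?_, ?_, P, hP1, hP2, hP3, hP4⟩
    · intro a ha b hb
      dsimp only
      rw [dif_pos ha, dif_pos hb, dif_pos ((AA G).mul_mem ha hb)]
      rfl
    · intro m
      refine ⟨val m, val_mem m, ?_⟩
      dsimp only
      rw [dif_pos (val_mem m)]
      rfl
    · intro a ha h
      dsimp only at h
      rw [dif_pos ha] at h
      exact congrArg val h
    · intro h
      obtain ⟨q, hq⟩ := hact1 h
      refine ⟨q, ?_⟩
      intro a ha
      dsimp only
      rw [dif_pos ha, dif_pos (AA_normal.conj_mem a ha h), ← hq]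
      rfl
    · intro q
      obtain ⟨h, hh⟩ := hact2 q
      refine ⟨h, ?_⟩
      intro a ha
      dsimp only
      rw [dif_pos ha, dif_pos (AA_normal.conj_mem a ha h), ← hh]
      rfl

end Pool.Agent.Helper27.ProP
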